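import Mathlib
import Pool.Agent.LeadMoved.MP_053b7f_lc.SplittingGame

set_option autoImplicit false

/-!
The set-splitting game on an uncountable set `E`: player A never has a winning strategy, and if
`E` has at most the cardinality of the continuum then player B has no winning strategy either.
-/

namespace Pool.Agent.Results.MP_c086f7_lc.Undetermined

open Pool.Agent.Results.MP_053b7f_lc
open Pool.Agent.Results.MP_053b7f_lc.SplittingGame (part moves moves_succ part_sub)

/-- A strategy of player B. A move of A is a pair `(b, X)`: the choice `b` of a part of the last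
partition made by B, and the partition of the chosen set given by `X` (the first component of the
first move of A has no meaning). The strategy tells B, given the list of all moves made by A so
far, which part of the last partition of A to choose and how to partition the chosen part. -/
structure StrategyB (E : Type*) where
  choose : List (Bool × Set E) → Bool
  split : List (Bool × Set E) → Set E

/-- The sets `X 0 = E ⊇ X 1 ⊇ X 2 ⊇ ...` of the play in which B follows `τ` and A makes the moves
`a 0, a 1, ...`. For even `n = 2k` the set `X n` is split by A and B chooses `X (n+1)`; for odd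
`n = 2k+1` it is split by B and A chooses `X (n+1)`. -/
def X {E : Type*} (τ : StrategyB E) (a : ℕ → Bool × Set E) : ℕ → Set E
  | 0 => Set.univ
  | n + 1 => if Even n then part (X τ a n) (a (n / 2)).2 (τ.choose (moves a (n / 2 + 1)))
      else part (X τ a n) (τ.split (moves a (n / 2 + 1))) (a (n / 2 + 1)).1

/-- B wins every play in which B follows `τ` -/
def WinningB {E : Type*} (τ : StrategyB E) : Prop :=
  ∀ a : ℕ → Bool × Set E, (⋂ n ≥ 1, X τ a n).Nonempty

lemma X_odd {E : Type*} (τ : StrategyB E) (a : ℕ → Bool × Set E) (k : ℕ) :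
    X τ a (2 * k + 1) = part (X τ a (2 * k)) (a k).2 (τ.choose (moves a (k + 1))) := by
  have h1 : Even (2 * k) := even_two_mul k
  have h2 : 2 * k / 2 = k := by omega
  rw [X, if_pos h1, h2]

lemma X_even {E : Type*} (τ : StrategyB E) (a : ℕ → Bool × Set E) (k : ℕ) :
    X τ a (2 * k + 2) = part (X τ a (2 * k + 1)) (τ.split (moves a (k + 1))) (a (k + 1)).1 := by
  have h1 : ¬ Even (2 * k + 1) := by
    rw [Nat.not_even_iff_odd]
    exact odd_two_mul_add_one k
  have h2 : (2 * k + 1) / 2 = k := by omega
  rw [show 2 * k + 2 = (2 * k + 1) + 1 from rfl, X, if_neg h1, h2]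

/-- the map `2^ω → 2^ω` given by a function on finite binary sequences -/
def xm (φ : List Bool → Bool) (c : ℕ → Bool) (k : ℕ) : Bool := φ ((List.range k).map c)

/-- a family of large sets has distinct representatives -/
lemma sdr {ι α : Type} [Nonempty α] (P : ι → Set α)
    (hP : ∀ i, Cardinal.mk ι ≤ Cardinal.mk (P i)) :
    ∃ f : ι → α, Function.Injective f ∧ ∀ i, f i ∈ P i := by
  classical
  obtain ⟨r, hr, hord⟩ := Cardinal.exists_ord_eq ι
  let _ : LinearOrder ι := linearOrderOfSTO r
  have _ : WellFoundedLT ι := ⟨hr.wf⟩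
  have hIio : ∀ i : ι, Cardinal.mk (Set.Iio i) < Cardinal.mk ι := fun i =>
    Cardinal.mk_Iio_lt i hord
  have hex : ∀ (i : ι) (g : ∀ j, j < i → α), ∃ x ∈ P i, ∀ j (hj : j < i), x ≠ g j hj := by
    intro i g
    by_contra hc
    push Not at hc
    have h1 : P i ⊆ Set.range (fun j : Set.Iio i => g j.1 j.2) := by
      intro x hx
      obtain ⟨j, hj, hxj⟩ := hc x hx
      exact ⟨⟨j, hj⟩, hxj.symm⟩
    have h2 := (Cardinal.mk_le_mk_of_subset h1).trans Cardinal.mk_range_le
    exact absurd (hP i) (not_le.2 (lt_of_le_of_lt h2 (hIio i)))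
  set G : ∀ i : ι, (∀ j, j < i → α) → α := fun i g => Classical.choose (hex i g) with hG
  set f : ι → α := WellFoundedLT.fix G with hf
  have hfe : ∀ i, f i = G i (fun j _ => f j) := fun i => WellFoundedLT.fix_eq G i
  have hs : ∀ i, f i ∈ P i ∧ ∀ j, j < i → f i ≠ f j := by
    intro i
    rw [hfe i]
    have := Classical.choose_spec (hex i (fun j _ => f j))
    exact ⟨this.1, fun j hj => this.2 j hj⟩
  refine ⟨f, ?_, fun i => (hs i).1⟩
  intro i j hij
  rcases lt_trichotomy i j with h | h | h
  · exact absurd hij.symm ((hs j).2 i h)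
  · exact h
  · exact absurd hij ((hs i).2 j h)

lemma exists_thin : ∃ g : (ℕ → Bool) → (ℕ → Bool), Function.Injective g ∧
    ∀ φ : List Bool → Bool, Function.Injective (xm φ) → ∃ c, xm φ c ∉ Set.range g := by
  have hc : Cardinal.mk (ℕ → Bool) = Cardinal.continuum := by simp
  have hl : Cardinal.mk (List Bool → Bool) = Cardinal.continuum := by
    have h1 : Cardinal.mk (List Bool) = Cardinal.aleph0 := Cardinal.mk_eq_aleph0 _
    rw [← Cardinal.power_def, h1]
    simp
  set P : {φ : List Bool → Bool // Function.Injective (xm φ)} ⊕ (ℕ → Bool) →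
      Set (ℕ → Bool) := fun i => Sum.elim (fun φ => Set.range (xm φ.1)) (fun _ => Set.univ) i
    with hPdef
  have hι : Cardinal.mk ({φ : List Bool → Bool // Function.Injective (xm φ)} ⊕ (ℕ → Bool)) ≤
      Cardinal.continuum := by
    rw [Cardinal.mk_sum, Cardinal.lift_id, Cardinal.lift_id, hc]
    refine (add_le_add_left (Cardinal.mk_subtype_le _) _).trans ?_
    rw [hl, Cardinal.continuum_add_self]
  obtain ⟨f, hfi, hfP⟩ := sdr P (by
    intro i
    rcases i with φ | x
    · refine hι.trans ?_
      have : P (Sum.inl φ) = Set.range (xm φ.1) := rfl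
      rw [this, Cardinal.mk_range_eq _ φ.2, hc]
    · refine hι.trans ?_
      have : P (Sum.inr x) = Set.univ := rfl
      rw [this, Cardinal.mk_univ, hc])
  refine ⟨fun x => f (Sum.inr x), fun x y h => Sum.inr_injective (hfi h), ?_⟩
  intro φ hφ
  obtain ⟨c, hcc⟩ := hfP (Sum.inl ⟨φ, hφ⟩)
  refine ⟨c, ?_⟩
  rintro ⟨x, hx⟩
  have h1 : xm φ c = f (Sum.inl ⟨φ, hφ⟩) := hcc
  rw [h1] at hx
  exact Sum.inr_ne_inl (hfi hx)

/-- the move `k` of A: choose the part `c (k-1)` and split according to the `k`-th coordinate -/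
def amv {E : Type*} (g : E → ℕ → Bool) (c : ℕ → Bool) (k : ℕ) : Bool × Set E :=
  (if k = 0 then true else c (k - 1), {e | g e k = true})

/-- the list of the first `l.length + 1` moves of A if A makes the choices `l` -/
def amvl {E : Type*} (g : E → ℕ → Bool) (l : List Bool) : List (Bool × Set E) :=
  (List.range (l.length + 1)).map (amv g (fun i => l.getD i true))

lemma moves_amv {E : Type*} (g : E → ℕ → Bool) (c : ℕ → Bool) (k : ℕ) :
    moves (amv g c) (k + 1) = amvl g ((List.range k).map c) := by
  unfold moves amvl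
  simp only [List.length_map, List.length_range]
  apply List.map_congr_left
  intro i hi
  rw [List.mem_range] at hi
  unfold amv
  by_cases h : i = 0
  · simp [h]
  · have h1 : i - 1 < k := by omega
    simp [h, List.getD, h1]

theorem B_loses {E : Type*} (g : E → ℕ → Bool) (hg : Function.Injective g)
    (hno : ∀ φ : List Bool → Bool, Function.Injective (xm φ) → ∃ c, xm φ c ∉ Set.range g)
    (τ : StrategyB E) : ¬ WinningB τ := by
  intro hτ
  set φ : List Bool → Bool := fun l => τ.choose (amvl g l) with hφ
  choose e he using fun c : ℕ → Bool => hτ (amv g c)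
  have hmem : ∀ c n, 1 ≤ n → e c ∈ X τ (amv g c) n := fun c n hn => by
    have := he c
    rw [Set.mem_iInter₂] at this
    exact this n hn
  have hval : ∀ c, g (e c) = xm φ c := by
    intro c
    funext k
    have h1 := hmem c (2 * k + 1) (by omega)
    rw [X_odd, moves_amv] at h1
    change g (e c) k = τ.choose (amvl g ((List.range k).map c))
    unfold part at h1
    cases hch : τ.choose (amvl g ((List.range k).map c)) with
    | true =>
      rw [hch] at h1
      exact h1.2
    | false =>
      rw [hch] at h1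
      have h2 : ¬ g (e c) k = true := h1.2
      simpa using h2
  have hX : ∀ c c' : ℕ → Bool, ∀ k, (∀ i < k, c i = c' i) →
      X τ (amv g c) (2 * k + 1) = X τ (amv g c') (2 * k + 1) := by
    intro c c' k
    induction k with
    | zero =>
      intro _
      have h0 : moves (amv g c) 1 = moves (amv g c') 1 := by
        rw [show (1 : ℕ) = 0 + 1 from rfl, moves_amv, moves_amv]
        rfl
      rw [X_odd, X_odd]
      change part Set.univ _ (τ.choose (moves (amv g c) 1)) =
        part Set.univ _ (τ.choose (moves (amv g c') 1))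
      rw [h0]
      rfl
    | succ k ih =>
      intro h
      have h1 := ih fun i hi => h i (by omega)
      have hl : ∀ j ≤ k + 1, (List.range j).map c = (List.range j).map c' := by
        intro j hj
        apply List.map_congr_left
        intro i hi
        rw [List.mem_range] at hi
        exact h i (by omega)
      have h2 : ∀ j ≤ k + 1, moves (amv g c) (j + 1) = moves (amv g c') (j + 1) := by
        intro j hj
        rw [moves_amv, moves_amv, hl j hj]
      have h3 : (amv g c (k + 1)).1 = (amv g c' (k + 1)).1 := by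
        simp [amv, h k (by omega)]
      rw [X_odd, X_odd, show 2 * (k + 1) = 2 * k + 2 from by ring, X_even, X_even, h1,
        h2 k (by omega), h2 (k + 1) le_rfl, h3]
      rfl
  have hinj : Function.Injective (xm φ) := by
    intro c c' hcc
    by_contra hne
    have hex : ∃ i, c i ≠ c' i := by
      by_contra hc
      push Not at hc
      exact hne (funext hc)
    classical
    set k := Nat.find hex with hk
    have hk1 : c k ≠ c' k := Nat.find_spec hex
    have hk2 : ∀ i < k, c i = c' i := fun i hi => by
      have := Nat.find_min hex hi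
      push Not at this
      exact this
    have he1 : e c = e c' := by
      apply hg
      rw [hval, hval, hcc]
    have h1 := hmem c (2 * k + 2) (by omega)
    have h2 := hmem c' (2 * k + 2) (by omega)
    have hl : (List.range k).map c = (List.range k).map c' := by
      apply List.map_congr_left
      intro i hi
      rw [List.mem_range] at hi
      exact hk2 i hi
    rw [X_even, moves_amv, hX c c' k hk2] at h1
    rw [X_even, moves_amv, ← hl, ← he1] at h2
    have h3 : (amv g c (k + 1)).1 = c k := by simp [amv]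
    have h4 : (amv g c' (k + 1)).1 = c' k := by simp [amv]
    rw [h3] at h1
    rw [h4] at h2
    unfold part at h1 h2
    cases hck : c k with
    | true =>
      cases hck' : c' k with
      | true => exact hk1 (hck.trans hck'.symm)
      | false =>
        rw [hck] at h1
        rw [hck'] at h2
        exact h2.2 h1.2
    | false =>
      cases hck' : c' k with
      | true =>
        rw [hck] at h1
        rw [hck'] at h2
        exact h1.2 h2.2
      | false => exact hk1 (hck.trans hck'.symm)
  obtain ⟨c, hc⟩ := hno φ hinj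
  exact hc ⟨e c, hval c⟩

theorem no_B (E : Type*) (hE : Cardinal.mk E ≤ Cardinal.continuum) :
    ¬ ∃ τ : StrategyB E, WinningB τ := by
  rintro ⟨τ, hτ⟩
  have h3 : Cardinal.lift.{0} (Cardinal.mk E) ≤ Cardinal.lift (Cardinal.mk (ℕ → Bool)) := by
    simpa using hE
  obtain ⟨j⟩ := Cardinal.lift_mk_le'.1 h3
  obtain ⟨g, hg, hno⟩ := exists_thin
  refine B_loses (fun e => g (j e)) (hg.comp j.injective) ?_ τ hτ
  intro φ hφ
  obtain ⟨c, hc⟩ := hno φ hφ
  refine ⟨c, ?_⟩
  rintro ⟨e, he⟩
  exact hc ⟨j e, he⟩

/-- B has a winning strategy if `E` carries a family `D` of sets such that decreasing sequences in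
`D` have nonempty intersection, every member contains two disjoint members, and for every member
`d` and every set `Y` one of `d ∩ Y`, `d \ Y` contains a member. -/
theorem B_wins {E : Type*} (D : Set (Set E)) (hne : D.Nonempty)
    (h1 : ∀ d : ℕ → Set E, (∀ n, d n ∈ D) → (∀ n, d (n + 1) ⊆ d n) → (⋂ n, d n).Nonempty)
    (h2 : ∀ d ∈ D, ∃ u ∈ D, ∃ v ∈ D, u ⊆ d ∧ v ⊆ d ∧ Disjoint u v)
    (h3 : ∀ d ∈ D, ∀ Y : Set E, ∃ d' ∈ D, d' ⊆ d ∩ Y ∨ d' ⊆ d \ Y) :
    ∃ τ : StrategyB E, WinningB τ := by
  classical
  have h3' : ∀ (d : Set E) (Y : Set E), ∃ q : Bool × Set E, d ∈ D →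
      q.2 ∈ D ∧ q.2 ⊆ part d Y q.1 := by
    intro d Y
    by_cases hd : d ∈ D
    · obtain ⟨d', hd', h | h⟩ := h3 d hd Y
      · exact ⟨(true, d'), fun _ => ⟨hd', h⟩⟩
      · exact ⟨(false, d'), fun _ => ⟨hd', h⟩⟩
    · exact ⟨(true, ∅), fun h => absurd h hd⟩
  have h2' : ∀ d : Set E, ∃ q : Set E × Set E, d ∈ D →
      q.1 ∈ D ∧ q.2 ∈ D ∧ q.1 ⊆ d ∧ q.2 ⊆ d ∧ Disjoint q.1 q.2 := by
    intro d
    by_cases hd : d ∈ D
    · obtain ⟨u, hu, v, hv, h⟩ := h2 d hd
      exact ⟨(u, v), fun _ => ⟨hu, hv, h⟩⟩
    · exact ⟨(∅, ∅), fun h => absurd h hd⟩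
  choose f hf using h3'
  choose w hw using h2'
  obtain ⟨d0, hd0⟩ := hne
  set sel : Bool × Set E × Set E → Bool → Set E := fun s b => if b then s.2.1 else s.2.2
    with hsel
  set stp : Bool × Set E × Set E → Bool × Set E → Bool × Set E × Set E := fun s mv =>
    ((f (sel s mv.1) mv.2).1, w (f (sel s mv.1) mv.2).2) with hstp
  set st : List (Bool × Set E) → Bool × Set E × Set E := fun L =>
    L.foldl stp (true, d0, d0) with hst
  refine ⟨⟨fun L => (st L).1, fun L => (st L).2.1⟩, fun a => ?_⟩
  set τ : StrategyB E := ⟨fun L => (st L).1, fun L => (st L).2.1⟩ with hτ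
  have hs : ∀ k, st (moves a (k + 1)) = stp (st (moves a k)) (a k) := by
    intro k
    rw [moves_succ, hst]
    simp only [List.foldl_append, List.foldl_cons, List.foldl_nil]
  set d : ℕ → Set E := fun k => sel (st (moves a k)) (a k).1 with hd
  have hmain : ∀ k, (d k ∈ D ∧ d k ⊆ X τ a (2 * k)) ∧
      (d (k + 1) ∈ D ∧ d (k + 1) ⊆ X τ a (2 * k + 2) ∧ d (k + 1) ⊆ d k) := by
    have hstep : ∀ k, d k ∈ D → d k ⊆ X τ a (2 * k) →
        (d (k + 1) ∈ D ∧ d (k + 1) ⊆ X τ a (2 * k + 2) ∧ d (k + 1) ⊆ d k) := by
      intro k hk1 hk2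
      obtain ⟨i1, i2⟩ := hf (d k) (a k).2 hk1
      obtain ⟨j1, j2, j3, j4, j5⟩ := hw (f (d k) (a k).2).2 i1
      have e1 : st (moves a (k + 1)) = ((f (d k) (a k).2).1, w (f (d k) (a k).2).2) := hs k
      have hsub : (f (d k) (a k).2).2 ⊆ X τ a (2 * k + 1) := by
        rw [X_odd]
        change _ ⊆ part _ _ (st (moves a (k + 1))).1
        rw [e1]
        refine i2.trans ?_
        unfold part
        split
        · exact Set.inter_subset_inter_left _ hk2
        · exact Set.sdiff_subset_sdiff_left hk2
      have hdk : (f (d k) (a k).2).2 ⊆ d k := i2.trans (part_sub _ _ _)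
      have e2 : d (k + 1) = if (a (k + 1)).1 then (w (f (d k) (a k).2).2).1
          else (w (f (d k) (a k).2).2).2 := by
        change sel (st (moves a (k + 1))) (a (k + 1)).1 = _
        rw [e1]
      have e3 : X τ a (2 * k + 2) =
          part (X τ a (2 * k + 1)) (w (f (d k) (a k).2).2).1 (a (k + 1)).1 := by
        rw [X_even]
        change part _ (st (moves a (k + 1))).2.1 _ = _
        rw [e1]
      rw [e2, e3]
      unfold part
      by_cases hb : (a (k + 1)).1 = true
      · rw [if_pos hb, if_pos hb]
        exact ⟨j1, Set.subset_inter (j3.trans hsub) subset_rfl, j3.trans hdk⟩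
      · rw [if_neg hb, if_neg hb]
        refine ⟨j2, ?_, j4.trans hdk⟩
        intro x hx
        exact ⟨hsub (j4 hx), fun hc => Set.disjoint_left.1 j5 hc hx⟩
    have h0 : ∀ k, d k ∈ D ∧ d k ⊆ X τ a (2 * k) := by
      intro k
      induction k with
      | zero =>
        have : d 0 = d0 := by
          change sel (true, d0, d0) (a 0).1 = d0
          rw [hsel]
          simp
        rw [this]
        exact ⟨hd0, Set.subset_univ _⟩
      | succ k ih =>
        obtain ⟨q1, q2, -⟩ := hstep k ih.1 ih.2
        exact ⟨q1, q2⟩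
    exact fun k => ⟨h0 k, hstep k (h0 k).1 (h0 k).2⟩
  obtain ⟨x, hx⟩ := h1 d (fun n => (hmain n).1.1) (fun n => (hmain n).2.2.2)
  have hXanti : ∀ n, X τ a (n + 1) ⊆ X τ a n := by
    intro n
    rw [X]
    split
    · exact part_sub _ _ _
    · exact part_sub _ _ _
  refine ⟨x, ?_⟩
  rw [Set.mem_iInter₂]
  intro n _
  have hn : x ∈ X τ a (2 * n) := (hmain n).1.2 (Set.mem_iInter.1 hx n)
  have hj : ∀ j, X τ a (n + j) ⊆ X τ a n := by
    intro j
    induction j with
    | zero => exact subset_rfl
    | succ j ih => exact (hXanti (n + j)).trans ih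
  have := hj n
  rw [show n + n = 2 * n from by ring] at this
  exact this hn

/-- For an uncountable set `E` player A has no winning strategy in the set-splitting game on `E`;
if moreover `|E| ≤ 2^ℵ₀`, then B has no winning strategy either, so the game is undetermined; and B
has a winning strategy (so `|E| > 2^ℵ₀`) whenever `E` carries a family `D` of sets with the
properties listed. -/
theorem result.{u} :
    (∀ (E : Type u) [Uncountable E],
      ¬ ∃ σ : SplittingGame.Strategy E, SplittingGame.Winning σ) ∧
    (∀ E : Type u, Cardinal.mk E ≤ Cardinal.continuum → ¬ ∃ τ : StrategyB E, WinningB τ) ∧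
    (∀ (E : Type u) (D : Set (Set E)), D.Nonempty →
      (∀ d : ℕ → Set E, (∀ n, d n ∈ D) → (∀ n, d (n + 1) ⊆ d n) → (⋂ n, d n).Nonempty) →
      (∀ d ∈ D, ∃ u ∈ D, ∃ v ∈ D, u ⊆ d ∧ v ⊆ d ∧ Disjoint u v) →
      (∀ d ∈ D, ∀ Y : Set E, ∃ d' ∈ D, d' ⊆ d ∩ Y ∨ d' ⊆ d \ Y) →
      ∃ τ : StrategyB E, WinningB τ) := by
  refine ⟨fun E _ h => ?_, fun E hE => no_B E hE, fun E D hne h1 h2 h3 => B_wins D hne h1 h2 h3⟩
  have h1 := (SplittingGame.result.1 E).1 h
  exact not_countable h1

end Pool.Agent.Results.MP_c086f7_lc.Undetermined
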